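import Pool.Agent.Helper23.Partner
import Pool.Agent.Helper23.Bic

set_option linter.unusedSectionVars false

/-!
# Module B2 of project G: smoothing without the balance condition
-/

open scoped InnerProductSpace Topology
open ContinuousLinearMap Filter

namespace Pool.Agent.Helper53.PG

open Pool.Agent.Helper23

universe u v

variable {H : Type u} [NormedAddCommGroup H] [InnerProductSpace ℂ H] [CompleteSpace H]
variable {M N : VonNeumannAlgebra H} {ξ : H} {E : (H →L[ℂ] H) → (H →L[ℂ] H)}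

/-- The conclusion of module B1 for a fixed `y` (all balanced families). -/
def SmoothStmt (M N : VonNeumannAlgebra H) (ξ : H) (y : H →L[ℂ] H) (κ K : ℝ) : Prop :=
  ∀ (ι : Type v) [Fintype ι] (c c' : ι → H →L[ℂ] H), (∀ l, Partner N ξ (c l) (c' l)) →
    ∀ m₀ δ : ℝ, 0 < m₀ → ∑ l, ‖c l ξ‖ ^ 2 ≤ m₀ → ∑ l, ‖(c' l - c l) ξ‖ ^ 2 ≤ δ →
    ∑ l, ⟪c l ξ, (c' l - c l) ξ⟫_ℂ = 0 → ∀ n : ℕ, 0 < n →
    K * ((1 + δ / (2 * m₀)) ^ n - 1) ≤ κ →
    ∃ z ∈ Qalg M N ξ, ‖(z - y) ξ‖ ^ 2 ≤ 2 * κ ∧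
      ∑ l, ‖(z * c l - c l * z) ξ‖ ^ 2 ≤ 8 * m₀ * κ / n

lemma exists_gamma (S : AP M N E ξ) {t : ℝ} (ht : 0 < t) (ht1 : t < 1) (s : ℝ)
    (hs : s = 1 ∨ s = -1) :
    ∃ γ : ℝ, 0 < γ ∧ ∃ w ∈ eig N ξ γ, w ≠ 0 ∧ t / 2 < s * (γ⁻¹ - 1) ∧ s * (γ⁻¹ - 1) < t := by
  rcases hs with rfl | rfl
  · obtain ⟨γ, ⟨hγ, w, hw, hw0⟩, h1, h2⟩ := S.dns (1 / (1 + t)) (1 / (1 + t / 2)) (by positivity)
      (by
        rw [div_lt_div_iff₀ (by positivity) (by positivity)]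
        linarith)
    refine ⟨γ, hγ, w, hw, hw0, ?_, ?_⟩
    · have h3 : 1 + t / 2 < γ⁻¹ := by
        rw [lt_inv_comm₀ (by positivity) hγ]
        rwa [one_div] at h2
      linarith
    · have h3 : γ⁻¹ < 1 + t := by
        rw [inv_lt_comm₀ hγ (by positivity)]
        rwa [one_div] at h1
      linarith
  · have h1t : 0 < 1 - t := by linarith
    have h2t : 0 < 1 - t / 2 := by linarith
    obtain ⟨γ, ⟨hγ, w, hw, hw0⟩, h1, h2⟩ := S.dns (1 / (1 - t / 2)) (1 / (1 - t)) (by positivity)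
      (by
        rw [div_lt_div_iff₀ (by positivity) (by positivity)]
        linarith)
    refine ⟨γ, hγ, w, hw, hw0, ?_, ?_⟩
    · have h3 : γ⁻¹ < 1 - t / 2 := by
        rw [inv_lt_comm₀ hγ (by positivity)]
        rwa [one_div] at h1
      linarith
    · have h3 : 1 - t < γ⁻¹ := by
        rw [lt_inv_comm₀ (by positivity) hγ]
        rwa [one_div] at h2
      linarith

lemma inner_real {c c' : H →L[ℂ] H} (h : Partner N ξ c c') :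
    ⟪c ξ, (c' - c) ξ⟫_ℂ = ((‖(star c) ξ‖ ^ 2 - ‖c ξ‖ ^ 2 : ℝ) : ℂ) := by
  rw [sub_apply, inner_sub_right, h.inner_self, inner_self_eq_norm_sq_to_K]
  push_cast
  rfl

theorem smoothing'_of (S : AP M N E ξ) {y : H →L[ℂ] H} {κ K : ℝ} (hκ : 0 < κ) (hK : 0 ≤ K)
    (hsm : SmoothStmt.{u, v} M N ξ y κ K) {ι : Type v} [Fintype ι] {c c' : ι → H →L[ℂ] H}
    (hc : ∀ l, Partner N ξ (c l) (c' l)) {G t : ℝ} (hG : 0 < G) (ht : 0 < t) (ht1 : t < 1)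
    (hm : ∑ l, ‖c l ξ‖ ^ 2 ≤ G) (hδ : ∑ l, ‖(c' l - c l) ξ‖ ^ 2 ≤ 25 * t ^ 2 * G)
    {n : ℕ} (hn : 0 < n) (hnδ : K * ((1 + 2 * t ^ 2) ^ n - 1) ≤ κ) :
    ∃ z ∈ Qalg M N ξ, ‖(z - y) ξ‖ ^ 2 ≤ 2 * κ ∧
      ∑ l, ‖(z * c l - c l * z) ξ‖ ^ 2 ≤ 96 * G * κ / n := by
  have hδ' : 30 * t ^ 2 * G / (2 * (12 * G)) ≤ 2 * t ^ 2 := by
    rw [div_le_iff₀ (by positivity)]
    nlinarith [mul_pos (pow_pos ht 2) hG]
  have hnδ' : K * ((1 + 30 * t ^ 2 * G / (2 * (12 * G))) ^ n - 1) ≤ κ := by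
    refine le_trans (mul_le_mul_of_nonneg_left ?_ hK) hnδ
    have : (1 + 30 * t ^ 2 * G / (2 * (12 * G))) ^ n ≤ (1 + 2 * t ^ 2) ^ n :=
      pow_le_pow_left₀ (by positivity) (by linarith) n
    linarith
  have h96 : 8 * (12 * G) * κ / n = 96 * G * κ / n := by ring
  set β : ℝ := ∑ l, (‖(star (c l)) ξ‖ ^ 2 - ‖c l ξ‖ ^ 2) with hβ
  have hb : ∑ l, ⟪c l ξ, (c' l - c l) ξ⟫_ℂ = (β : ℂ) := by
    rw [hβ, Complex.ofReal_sum]
    exact Finset.sum_congr rfl fun l _ => inner_real (hc l)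
  by_cases hβ0 : β = 0
  · obtain ⟨z, hz, h1, h2⟩ := hsm ι c c' hc (12 * G) (30 * t ^ 2 * G) (by positivity)
      (by linarith) (by nlinarith [mul_pos (pow_pos ht 2) hG]) (by rw [hb, hβ0]; simp) n hn hnδ'
    exact ⟨z, hz, h1, by rw [← h96]; exact h2⟩
  -- the bound for `β`
  have hβ1 : |β| ≤ 5 * t * G := by
    have h1 : |β| = ‖∑ l, ⟪c l ξ, (c' l - c l) ξ⟫_ℂ‖ := by
      rw [hb, Complex.norm_real, Real.norm_eq_abs]
    have h2 : ‖∑ l, ⟪c l ξ, (c' l - c l) ξ⟫_ℂ‖ ≤ ∑ l, ‖c l ξ‖ * ‖(c' l - c l) ξ‖ :=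
      (norm_sum_le _ _).trans (Finset.sum_le_sum fun l _ => norm_inner_le_norm _ _)
    have h3 : (∑ l, ‖c l ξ‖ * ‖(c' l - c l) ξ‖) ^ 2 ≤
        (∑ l, ‖c l ξ‖ ^ 2) * ∑ l, ‖(c' l - c l) ξ‖ ^ 2 :=
      Finset.sum_mul_sq_le_sq_mul_sq _ _ _
    have h4 : (∑ l, ‖c l ξ‖ ^ 2) * ∑ l, ‖(c' l - c l) ξ‖ ^ 2 ≤ G * (25 * t ^ 2 * G) :=
      mul_le_mul hm hδ (Finset.sum_nonneg fun _ _ => by positivity) hG.le
    have h5 : (∑ l, ‖c l ξ‖ * ‖(c' l - c l) ξ‖) ≤ 5 * t * G := by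
      refine abs_le_of_sq_le_sq' ?_ (by positivity) |>.2
      calc _ ≤ _ := h3
        _ ≤ _ := h4
        _ = _ := by ring
    rw [h1]
    exact h2.trans h5
  -- the sign
  set s : ℝ := if 0 < β then -1 else 1 with hs
  have hs1 : s = 1 ∨ s = -1 := by
    rw [hs]; split_ifs <;> simp
  have hsβ : s * |β| = -β := by
    rw [hs]
    split_ifs with h
    · rw [abs_of_pos h]; ring
    · rw [abs_of_nonpos (not_lt.1 h)]; ring
  obtain ⟨γ, hγ, w, hw, hw0, hg1, hg2⟩ := exists_gamma S ht ht1 s hs1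
  have hss : s * s = 1 := by rcases hs1 with h | h <;> rw [h] <;> norm_num
  set e : ℝ := s * (γ⁻¹ - 1) with he
  have he0 : 0 < e := lt_trans (by positivity) hg1
  have hge : γ⁻¹ - 1 = s * e := by rw [he, ← mul_assoc, hss, one_mul]
  have hwN : w ∈ N := hw.1
  have hwξ : 0 < ‖w ξ‖ := by
    rw [norm_pos_iff]
    intro h
    exact hw0 (S.sep w (S.le w hwN) h)
  set q : ℝ := |β| / (e * ‖w ξ‖ ^ 2) with hq
  have hq0 : 0 ≤ q := by positivity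
  set lam : ℝ := Real.sqrt q with hlam
  have hlam2 : lam ^ 2 = q := Real.sq_sqrt hq0
  have hqe : q * ‖w ξ‖ ^ 2 * e = |β| := by
    rw [hq]
    field_simp
  have hqm : q * ‖w ξ‖ ^ 2 ≤ 10 * G := by
    have h1 : q * ‖w ξ‖ ^ 2 * e ≤ 10 * G * e := by
      rw [hqe]
      refine hβ1.trans ?_
      nlinarith
    exact le_of_mul_le_mul_right h1 he0
  -- the extended family
  set d : Option ι → H →L[ℂ] H := fun o => o.elim ((lam : ℂ) • w) c with hd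
  set d' : Option ι → H →L[ℂ] H :=
    fun o => o.elim ((lam : ℂ) • (((γ⁻¹ : ℝ) : ℂ) • w)) c' with hd'
  have hdp : ∀ o, Partner N ξ (d o) (d' o) := by
    intro o
    cases o with
    | none => exact (Partner.of_eig hγ.ne' hw).smul _
    | some l => exact hc l
  have hdn : ‖d none ξ‖ ^ 2 = q * ‖w ξ‖ ^ 2 := by
    change ‖((lam : ℂ) • w) ξ‖ ^ 2 = _
    rw [smul_apply, norm_smul, mul_pow, Complex.norm_real, Real.norm_eq_abs, sq_abs, hlam2]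
  have hdd : (d' none - d none) ξ = ((lam * (s * e) : ℝ) : ℂ) • w ξ := by
    change ((lam : ℂ) • (((γ⁻¹ : ℝ) : ℂ) • w) - (lam : ℂ) • w) ξ = _
    rw [← hge]
    simp only [sub_apply, smul_apply, smul_smul]
    rw [← sub_smul]
    congr 1
    push_cast
    ring
  have hddn : ‖(d' none - d none) ξ‖ ^ 2 = |β| * e := by
    rw [hdd, norm_smul, mul_pow, Complex.norm_real, Real.norm_eq_abs, sq_abs]
    have : (lam * (s * e)) ^ 2 = q * e ^ 2 := by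
      rw [mul_pow, hlam2, mul_pow, sq s, hss, one_mul]
    rw [this, ← hqe]
    ring
  have hinn : ⟪d none ξ, (d' none - d none) ξ⟫_ℂ = ((-β : ℝ) : ℂ) := by
    rw [hdd]
    change ⟪((lam : ℂ) • w) ξ, _⟫_ℂ = _
    rw [smul_apply, inner_smul_left, inner_smul_right, inner_self_eq_norm_sq_to_K,
      Complex.conj_ofReal, ← hsβ, ← hqe, ← hlam2]
    push_cast
    rw [show ((RCLike.ofReal ‖w ξ‖ : ℂ)) = ((‖w ξ‖ : ℝ) : ℂ) from rfl]
    ring
  obtain ⟨z, hz, h1, h2⟩ := hsm (Option ι) d d' hdp (12 * G) (30 * t ^ 2 * G) (by positivity)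
    (by
      rw [Fintype.sum_option, hdn]
      have : ∑ l, ‖d (some l) ξ‖ ^ 2 ≤ G := hm
      linarith)
    (by
      rw [Fintype.sum_option, hddn]
      have h3 : ∑ l, ‖(d' (some l) - d (some l)) ξ‖ ^ 2 ≤ 25 * t ^ 2 * G := hδ
      have h4 : |β| * e ≤ 5 * t * G * t :=
        mul_le_mul hβ1 hg2.le he0.le (by positivity)
      nlinarith)
    (by
      rw [Fintype.sum_option, hinn]
      have h3 : ∑ l, ⟪d (some l) ξ, (d' (some l) - d (some l)) ξ⟫_ℂ = (β : ℂ) := hb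
      rw [h3, ← Complex.ofReal_add]
      simp) n hn hnδ'
  refine ⟨z, hz, h1, ?_⟩
  rw [h96, Fintype.sum_option] at h2
  refine le_trans ?_ h2
  exact le_add_of_nonneg_left (by positivity)

end Pool.Agent.Helper53.PG
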